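import Pool.Agent.H86.MCR.INB

/-!
# Board mcr (MP_ffb5eb), row OLD

Old arcs, and reversal of orientation.
-/

set_option autoImplicit false

namespace Pool.MCR

section

variable {L : Type} [LinearOrder L]

theorem old_lp (a b : L) : lp a 0 < lp b 0 ↔ a < b := by
  unfold lp
  rw [Prod.Lex.toLex_lt_toLex]
  simp

omit [LinearOrder L] in
theorem old_lp_inj {a b : L} : lp a 0 = lp b 0 ↔ a = b := by
  unfold lp
  rw [toLex_inj, Prod.mk.injEq]
  simp

theorem old_inter (a b c d : L) :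
    Inter (lp a 0) (lp b 0) (lp c 0) (lp d 0) ↔ Inter a b c d := by
  unfold Inter Btw Out
  simp only [old_lp]

theorem old_cross (A B : Arc L) : Cross (l0 A) (l0 B) ↔ Cross A B := by
  unfold Cross l0
  simp only [old_inter]

omit [LinearOrder L] in
theorem old_l0_inj {A B : Arc L} : l0 A = l0 B ↔ A = B := by
  obtain ⟨s, a, b⟩ := A
  obtain ⟨t, c, d⟩ := B
  unfold l0
  simp only [Prod.mk.injEq, old_lp_inj]

/-- reversal of an arc -/
def rv (A : Arc L) : Arc L := (A.1, A.2.2, A.2.1)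

omit [LinearOrder L] in
theorem rv_rv (A : Arc L) : rv (rv A) = A := rfl

omit [LinearOrder L] in
theorem rv_inj {A B : Arc L} (h : rv A = rv B) : A = B := by
  rw [← rv_rv A, h, rv_rv]

theorem cross_rv_left (A B : Arc L) : Cross (rv A) B ↔ Cross A B := by
  obtain ⟨h1, -, -, -⟩ := inb_thm L A.2.1 A.2.2 B.2.1 B.2.2
  unfold Cross rv
  rw [h1]

theorem cross_symm (A B : Arc L) : Cross A B ↔ Cross B A := by
  obtain ⟨-, -, h1, -⟩ := inb_thm L A.2.1 A.2.2 B.2.1 B.2.2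
  unfold Cross
  rw [h1]
  constructor
  · rintro ⟨h2, h3⟩
    exact ⟨h2.symm, h3⟩
  · rintro ⟨h2, h3⟩
    exact ⟨h2.symm, h3⟩

theorem nc_symm {α β : List (Arc L)} : NC α β ↔ NC β α :=
  ⟨fun h A hA B hB hc => h B hB A hA ((cross_symm _ _).1 hc),
    fun h A hA B hB hc => h B hB A hA ((cross_symm _ _).1 hc)⟩

theorem am_symm' {α β : List (Arc L)} (h : AM α β) : AM β α := by
  intro A hA B hB A' hA' B' hB' h1 h2
  exact (h B hB A hA B' hB' A' hA' ((cross_symm _ _).1 h1) ((cross_symm _ _).1 h2)).symm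

theorem am_symm {α β : List (Arc L)} : AM α β ↔ AM β α := ⟨am_symm', am_symm'⟩

theorem ex_symm {α β : List (Arc L)} : EX α β ↔ EX β α :=
  ⟨fun ⟨A, hA, B, hB, hc⟩ => ⟨B, hB, A, hA, (cross_symm _ _).1 hc⟩,
    fun ⟨A, hA, B, hB, hc⟩ => ⟨B, hB, A, hA, (cross_symm _ _).1 hc⟩⟩

theorem nc_rev {α α' β : List (Arc L)} (h : ∀ A ∈ α', rv A ∈ α) (hn : NC α β) : NC α' β :=
  fun A hA B hB hc => hn (rv A) (h A hA) B hB ((cross_rv_left _ _).2 hc)

theorem am_rev {α α' β : List (Arc L)} (h : ∀ A ∈ α', rv A ∈ α) (hn : AM α β) : AM α' β := by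
  intro A hA B hB A' hA' B' hB' h1 h2
  obtain ⟨h3, h4⟩ := hn (rv A) (h A hA) B hB (rv A') (h A' hA') B' hB'
    ((cross_rv_left _ _).2 h1) ((cross_rv_left _ _).2 h2)
  exact ⟨rv_inj h3, h4⟩

theorem ex_rev {α α' β : List (Arc L)} (h : ∀ A ∈ α, rv A ∈ α') (hn : EX α β) : EX α' β := by
  obtain ⟨A, hA, B, hB, hc⟩ := hn
  exact ⟨rv A, h A hA, B, hB, (cross_rv_left _ _).2 hc⟩

end

theorem old_thm : OLD_S := by
  intro L _
  refine ⟨fun α β => ⟨?_, ?_, ?_⟩, fun α α' β h1 h2 => ?_, fun α β => ⟨nc_symm, am_symm, ex_symm⟩⟩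
  · unfold NC
    simp only [List.forall_mem_map, old_cross]
  · unfold AM
    simp only [List.forall_mem_map, old_cross, old_l0_inj]
  · constructor
    · rintro ⟨_, hA, _, hB, hc⟩
      obtain ⟨A, hA', rfl⟩ := List.mem_map.1 hA
      obtain ⟨B, hB', rfl⟩ := List.mem_map.1 hB
      exact ⟨A, hA', B, hB', (old_cross _ _).1 hc⟩
    · rintro ⟨A, hA, B, hB, hc⟩
      exact ⟨l0 A, List.mem_map.2 ⟨A, hA, rfl⟩, l0 B, List.mem_map.2 ⟨B, hB, rfl⟩,
        (old_cross _ _).2 hc⟩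
  · have h3 : ∀ A ∈ α, rv A ∈ α' := fun A hA => h1 _ _ _ hA
    have h4 : ∀ A ∈ α', rv A ∈ α := fun A hA => h2 _ _ _ hA
    have hN : NC α β ↔ NC α' β := ⟨nc_rev h4, nc_rev h3⟩
    have hA : AM α β ↔ AM α' β := ⟨am_rev h4, am_rev h3⟩
    have hE : EX α β ↔ EX α' β := ⟨ex_rev h3, ex_rev h4⟩
    exact ⟨hN, by rw [nc_symm, hN, nc_symm], hA, by rw [am_symm, hA, am_symm], hE,
      by rw [ex_symm, hE, ex_symm]⟩

end Pool.MCR
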