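import Pool.Agent.H86.MCR.OLD

/-!
# Board mcr (MP_ffb5eb), row CTH

The new edge of the tree crosses all independent edges of the tree.
-/

set_option autoImplicit false

namespace Pool.MCR

theorem cth_thm (hCLB : CLB_S) (hCNX : CNX_S) : CTH_S := by
  intro L _ n D w u r T hT hG hThr hw hu huw hTwu hR hF
  obtain ⟨-, hold, hrev1, hrev2⟩ := hCLB L n D w r hw
  obtain ⟨hX1, hX2⟩ := hCNX L n D w u r hG hw hu huw hR hF
  -- reversal of an old edge
  have hrevold : ∀ x < n, ∀ y < n, x ≠ y → ∀ A ∈ (clone D n w r).A x y,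
      rv A ∈ (clone D n w r).A y x := by
    intro x hx y hy hxy A hA
    rw [hold x hx y hy] at hA
    rw [hold y hy x hx]
    obtain ⟨B, hB, rfl⟩ := List.mem_map.1 hA
    exact List.mem_map.2 ⟨rv B, hG.symA x hx y hy hxy _ _ _ hB, rfl⟩
  -- the new edge against an old one
  have key : ∀ z < n, ∀ t < n, z ≠ t → z ≠ u → t ≠ u → (T z t ∨ T t z) →
      EX ((clone D n w r).A n u) ((clone D n w r).A z t) := by
    intro z hz t ht hzt hzu htu hTzt
    by_cases hzw : z = w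
    · subst hzw
      exact hX2 t ht (Ne.symm hzt) htu
    · by_cases htw : t = w
      · subst htw
        have h1 := hX2 z hz hzw hzu
        exact ex_symm.1 (ex_rev (hrevold t ht z hz (Ne.symm hzt)) (ex_symm.1 h1))
      · exact hX1 z hz t ht hzt hzw hzu htw htu
          (hThr w hw u hu z hz t ht (Ne.symm huw) hzt (Ne.symm hzw) (Ne.symm htw) (Ne.symm hzu)
            (Ne.symm htu) hTwu hTzt)
  have key' : ∀ z < n, ∀ t < n, z ≠ t → z ≠ u → t ≠ u → (T z t ∨ T t z) →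
      EX ((clone D n w r).A u n) ((clone D n w r).A z t) := by
    intro z hz t ht hzt hzu htu hTzt
    exact ex_rev (fun A hA => hrev1 u hu _ _ _ hA) (key z hz t ht hzt hzu htu hTzt)
  -- the edges of the new tree
  have hedge : ∀ x y, (addE T n u x y ∨ addE T n u y x) →
      (x < n ∧ y < n ∧ (T x y ∨ T y x)) ∨ (x = n ∧ y = u) ∨ (x = u ∧ y = n) := by
    rintro x y ((h | h) | (h | h))
    · exact Or.inl ⟨(hT _ _ h).1, (hT _ _ h).2, Or.inl h⟩
    · exact Or.inr (Or.inl h)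
    · exact Or.inl ⟨(hT _ _ h).2, (hT _ _ h).1, Or.inr h⟩
    · exact Or.inr (Or.inr ⟨h.2, h.1⟩)
  intro x _ y _ z _ t _ hxy hzt hxz hxt hyz hyt h1 h2
  rcases hedge x y h1 with ⟨hx, hy, h3⟩ | ⟨rfl, rfl⟩ | ⟨rfl, rfl⟩
  · rcases hedge z t h2 with ⟨hz, ht, h4⟩ | ⟨rfl, rfl⟩ | ⟨rfl, rfl⟩
    · rw [hold x hx y hy, hold z hz t ht, ((old_thm L).1 _ _).2.2]
      exact hThr x hx y hy z hz t ht hxy hzt hxz hxt hyz hyt h3 h4
    · exact ex_symm.1 (key x hx y hy hxy hxt hyt h3)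
    · exact ex_symm.1 (key' x hx y hy hxy hxz hyz h3)
  · rcases hedge z t h2 with ⟨hz, ht, h4⟩ | ⟨h5, -⟩ | ⟨-, h5⟩
    · exact key z hz t ht hzt (Ne.symm hyz) (Ne.symm hyt) h4
    · exact absurd h5.symm hxz
    · exact absurd h5.symm hxt
  · rcases hedge z t h2 with ⟨hz, ht, h4⟩ | ⟨h5, -⟩ | ⟨-, h5⟩
    · exact key' z hz t ht hzt (Ne.symm hxz) (Ne.symm hxt) h4
    · exact absurd h5.symm hyz
    · exact absurd h5.symm hyt

end Pool.MCR
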