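import Pool.Agent.H88.MCR.Stmts

/-!
# Board mcr (MP_ffb5eb), row INB

Symmetries of interleaving.
-/

set_option autoImplicit false

namespace Pool.MCR

theorem inb_thm : INB_S := by
  intro L _ a b c d
  refine ⟨?_, ?_, ?_, ?_⟩
  · unfold Inter Btw Out
    grind
  · unfold Inter Btw Out
    grind
  · unfold Inter Btw Out
    grind
  · unfold Inter Btw Out
    grind

end Pool.MCR
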